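import Pool.Agent.Helper57.LJ.Junta
import Pool.Agent.Helper78.LJ.WnDigit

/-! A bilinear sum with a periodic weight. -/

namespace Pool.Agent.Helper43.ON

open Finset
open Pool.Agent.Helper57.PC (Fr ch Wn e hat ch_add ch_nat_add ch_coe)

lemma ch_smul_inv (m : ℕ) (t n : ℕ) :
    ch n (t • (((1 : ℝ) / m : ℝ) : Fr)) = Complex.exp (2 * Real.pi * Complex.I / m) ^ (t * n) := by
  rw [← AddCircle.coe_nsmul, ch_coe, ← Complex.exp_nat_mul]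
  congr 1
  rw [nsmul_eq_mul]
  push_cast
  ring

lemma parseval_periodic {m : ℕ} (hm : 0 < m) {ζ : ℂ} (hζ : IsPrimitiveRoot ζ m) (hn : ‖ζ‖ = 1)
    (P : ℕ → ℂ) (hP1 : ∀ n, ‖P n‖ ≤ 1) :
    ∑ t ∈ range m, ‖(1 / (m : ℂ)) * ∑ r ∈ range m, P r * (starRingEnd ℂ) (ζ ^ (t * r))‖ ^ 2
      ≤ 1 := by
  have hmR : (0 : ℝ) < m := Nat.cast_pos.2 hm
  have hmC : (m : ℂ) ≠ 0 := Nat.cast_ne_zero.2 hm.ne'
  have key : ((∑ t ∈ range m, ‖∑ r ∈ range m, P r * (starRingEnd ℂ) (ζ ^ (t * r))‖ ^ 2 : ℝ) : ℂ)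
      = ((m * ∑ r ∈ range m, ‖P r‖ ^ 2 : ℝ) : ℂ) := by
    push_cast
    have e1 : ∀ t ∈ range m,
        ((‖∑ r ∈ range m, P r * (starRingEnd ℂ) (ζ ^ (t * r))‖ : ℝ) : ℂ) ^ 2
        = ∑ r ∈ range m, ∑ s ∈ range m, P r * (starRingEnd ℂ) (P s) *
          (ζ ^ (t * s) * (starRingEnd ℂ) (ζ ^ (t * r))) := by
      intro t _
      rw [← Complex.mul_conj', map_sum, Finset.sum_mul_sum]
      refine Finset.sum_congr rfl fun r _ => Finset.sum_congr rfl fun s _ => ?_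
      rw [map_mul, Complex.conj_conj]
      ring
    rw [Finset.sum_congr rfl e1, Finset.sum_comm, Finset.mul_sum]
    refine Finset.sum_congr rfl fun r hr => ?_
    rw [Finset.sum_comm]
    have e2 : ∀ s ∈ range m, ∑ t ∈ range m, P r * (starRingEnd ℂ) (P s) *
        (ζ ^ (t * s) * (starRingEnd ℂ) (ζ ^ (t * r))) =
        if s = r then (m : ℂ) * (P r * (starRingEnd ℂ) (P r)) else 0 := by
      intro s hs
      rw [← Finset.mul_sum, Pool.Agent.Helper78.LJ.orth hm hζ hn s r,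
        Nat.mod_eq_of_lt (mem_range.1 hs), Nat.mod_eq_of_lt (mem_range.1 hr)]
      by_cases h : s = r
      · rw [if_pos h, if_pos h, h]
        ring
      · rw [if_neg h, if_neg h, mul_zero]
    rw [Finset.sum_congr rfl e2, Finset.sum_ite_eq' (range m) r
      (fun _ => (m : ℂ) * (P r * (starRingEnd ℂ) (P r))), if_pos hr, Complex.mul_conj']
  have key' : ∑ t ∈ range m, ‖∑ r ∈ range m, P r * (starRingEnd ℂ) (ζ ^ (t * r))‖ ^ 2
      = m * ∑ r ∈ range m, ‖P r‖ ^ 2 := by exact_mod_cast key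
  have e3 : ∀ t ∈ range m,
      ‖(1 / (m : ℂ)) * ∑ r ∈ range m, P r * (starRingEnd ℂ) (ζ ^ (t * r))‖ ^ 2 =
      (1 / (m : ℝ)) ^ 2 * ‖∑ r ∈ range m, P r * (starRingEnd ℂ) (ζ ^ (t * r))‖ ^ 2 := by
    intro t _
    rw [norm_mul, mul_pow, norm_div, norm_one, Complex.norm_natCast]
  rw [Finset.sum_congr rfl e3, ← Finset.mul_sum, key']
  have e4 : ∑ r ∈ range m, ‖P r‖ ^ 2 ≤ m := by
    calc ∑ r ∈ range m, ‖P r‖ ^ 2 ≤ ∑ _r ∈ range m, (1 : ℝ) :=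
          Finset.sum_le_sum fun r _ => pow_le_one₀ (norm_nonneg _) (hP1 r)
      _ = m := by simp
  calc (1 / (m : ℝ)) ^ 2 * (m * ∑ r ∈ range m, ‖P r‖ ^ 2)
      ≤ (1 / (m : ℝ)) ^ 2 * (m * m) := by gcongr
    _ = 1 := by field_simp

lemma inversion {m : ℕ} (hm : 0 < m) {ζ : ℂ} (hζ : IsPrimitiveRoot ζ m) (hn : ‖ζ‖ = 1)
    (P : ℕ → ℂ) (hP : ∀ n, P (n + m) = P n) (n : ℕ) :
    P n = ∑ t ∈ range m, ((1 / (m : ℂ)) *
      ∑ r ∈ range m, P r * (starRingEnd ℂ) (ζ ^ (t * r))) * ζ ^ (t * n) := by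
  have hmC : (m : ℂ) ≠ 0 := Nat.cast_ne_zero.2 hm.ne'
  have hper : P (n % m) = P n := by
    have h := Function.Periodic.map_mod_nat (f := P) (a := m) hP n
    exact h
  have e1 : ∀ t ∈ range m, ((1 / (m : ℂ)) *
      ∑ r ∈ range m, P r * (starRingEnd ℂ) (ζ ^ (t * r))) * ζ ^ (t * n) =
      ∑ r ∈ range m, (1 / (m : ℂ)) * P r * (ζ ^ (t * n) * (starRingEnd ℂ) (ζ ^ (t * r))) := by
    intro t _
    rw [Finset.mul_sum, Finset.sum_mul]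
    exact Finset.sum_congr rfl fun r _ => by ring
  rw [Finset.sum_congr rfl e1, Finset.sum_comm]
  have e2 : ∀ r ∈ range m,
      ∑ t ∈ range m, (1 / (m : ℂ)) * P r * (ζ ^ (t * n) * (starRingEnd ℂ) (ζ ^ (t * r))) =
      if n % m = r then P r else 0 := by
    intro r hr
    rw [← Finset.mul_sum, Pool.Agent.Helper78.LJ.orth hm hζ hn n r,
      Nat.mod_eq_of_lt (mem_range.1 hr)]
    by_cases h : n % m = r
    · rw [if_pos h, if_pos h]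
      field_simp
    · rw [if_neg h, if_neg h, mul_zero]
  rw [Finset.sum_congr rfl e2, Finset.sum_ite_eq (range m) (n % m) P,
    if_pos (mem_range.2 (Nat.mod_lt _ hm)), hper]

theorem inner_bound (m : ℕ) (hm : 0 < m) (S : Finset ℕ) (τ η : Fr) (P : ℕ → ℂ)
    (hP : ∀ n, P (n + m) = P n) (hP1 : ∀ n, ‖P n‖ ≤ 1) :
    ‖∑ p ∈ S ×ˢ S, ch p.1 η * (ch (p.1 + p.2) τ * P (p.1 + p.2))‖ ^ 2 ≤
      ∑ t ∈ range m, ‖hat S (t • (((1 : ℝ) / m : ℝ) : Fr) + τ + η)‖ ^ 2 *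
        ‖hat S (t • (((1 : ℝ) / m : ℝ) : Fr) + τ)‖ ^ 2 := by
  obtain ⟨ζ, hζe⟩ : ∃ ζ : ℂ, ζ = Complex.exp (2 * Real.pi * Complex.I / m) := ⟨_, rfl⟩
  have hζ : IsPrimitiveRoot ζ m := by
    rw [hζe]
    exact Complex.isPrimitiveRoot_exp m hm.ne'
  have hn : ‖ζ‖ = 1 := hζ.norm'_eq_one hm.ne'
  obtain ⟨c, hc⟩ : ∃ c : ℕ → ℂ, ∀ t, c t = (1 / (m : ℂ)) *
      ∑ r ∈ range m, P r * (starRingEnd ℂ) (ζ ^ (t * r)) := ⟨_, fun t => rfl⟩
  have hcP : ∑ t ∈ range m, ‖c t‖ ^ 2 ≤ 1 := by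
    simp only [hc]
    exact parseval_periodic hm hζ hn P hP1
  have hinv : ∀ n, P n = ∑ t ∈ range m, c t * ζ ^ (t * n) := by
    intro n
    simp only [hc]
    exact inversion hm hζ hn P hP n
  have hch : ∀ t n : ℕ, ch n (t • (((1 : ℝ) / m : ℝ) : Fr)) = ζ ^ (t * n) := by
    intro t n
    rw [ch_smul_inv, hζe]
  have hmain : ∑ p ∈ S ×ˢ S, ch p.1 η * (ch (p.1 + p.2) τ * P (p.1 + p.2)) =
      ∑ t ∈ range m, c t * (hat S (t • (((1 : ℝ) / m : ℝ) : Fr) + τ + η) *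
        hat S (t • (((1 : ℝ) / m : ℝ) : Fr) + τ)) := by
    have e1 : ∀ t ∈ range m, c t * (hat S (t • (((1 : ℝ) / m : ℝ) : Fr) + τ + η) *
        hat S (t • (((1 : ℝ) / m : ℝ) : Fr) + τ)) =
        ∑ p ∈ S ×ˢ S, ch p.1 η * (ch (p.1 + p.2) τ * (c t * ζ ^ (t * (p.1 + p.2)))) := by
      intro t _
      unfold hat
      rw [Finset.sum_mul_sum, Finset.mul_sum, Finset.sum_product]
      refine Finset.sum_congr rfl fun a _ => ?_
      rw [Finset.mul_sum]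
      refine Finset.sum_congr rfl fun b _ => ?_
      rw [ch_add, ch_add, ch_add, hch, hch, ch_nat_add a b τ, mul_add, pow_add]
      ring
    rw [Finset.sum_congr rfl e1, Finset.sum_comm]
    refine Finset.sum_congr rfl fun p _ => ?_
    rw [hinv, Finset.mul_sum, Finset.mul_sum]
  rw [hmain]
  have h1 : ‖∑ t ∈ range m, c t * (hat S (t • (((1 : ℝ) / m : ℝ) : Fr) + τ + η) *
        hat S (t • (((1 : ℝ) / m : ℝ) : Fr) + τ))‖ ≤
      ∑ t ∈ range m, ‖c t‖ * (‖hat S (t • (((1 : ℝ) / m : ℝ) : Fr) + τ + η)‖ *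
        ‖hat S (t • (((1 : ℝ) / m : ℝ) : Fr) + τ)‖) := by
    refine (norm_sum_le _ _).trans (le_of_eq (Finset.sum_congr rfl fun t _ => ?_))
    rw [norm_mul, norm_mul]
  calc _ ≤ (∑ t ∈ range m, ‖c t‖ * (‖hat S (t • (((1 : ℝ) / m : ℝ) : Fr) + τ + η)‖ *
        ‖hat S (t • (((1 : ℝ) / m : ℝ) : Fr) + τ)‖)) ^ 2 :=
        pow_le_pow_left₀ (norm_nonneg _) h1 2
    _ ≤ (∑ t ∈ range m, ‖c t‖ ^ 2) *
        ∑ t ∈ range m, (‖hat S (t • (((1 : ℝ) / m : ℝ) : Fr) + τ + η)‖ *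
          ‖hat S (t • (((1 : ℝ) / m : ℝ) : Fr) + τ)‖) ^ 2 :=
        Finset.sum_mul_sq_le_sq_mul_sq _ _ _
    _ ≤ 1 * ∑ t ∈ range m, (‖hat S (t • (((1 : ℝ) / m : ℝ) : Fr) + τ + η)‖ *
          ‖hat S (t • (((1 : ℝ) / m : ℝ) : Fr) + τ)‖) ^ 2 :=
        mul_le_mul_of_nonneg_right hcP (Finset.sum_nonneg fun _ _ => sq_nonneg _)
    _ = _ := by
        rw [one_mul]
        exact Finset.sum_congr rfl fun t _ => by rw [mul_pow]

end Pool.Agent.Helper43.ON
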